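import Pool.Agent.Y594.LP.Finalc

namespace Pool.Agent.Results.MP_5b95d4_nt.EveryClassAndBox

/-- `L p` is the number of integers `n ≥ 0` such that `a * b = n * p + 1` for some `a`, `b` with
`1 ≤ a ≤ p - 1` and `0 < b < p`. For a prime `p` this forces `b` to be the inverse of `a` modulo
`p` in `(0, p)`, and `n = (a * b - 1) / p`. -/
noncomputable def L (p : ℕ) : ℕ :=
  Set.ncard {n : ℕ | ∃ a b : ℕ, 1 ≤ a ∧ a ≤ p - 1 ∧ 0 < b ∧ b < p ∧ a * b = n * p + 1}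

/-- `LX p X` is the number of the integers `n` counted by `L p` with `n ≤ X`. -/
noncomputable def LX (p X : ℕ) : ℕ :=
  Set.ncard {n : ℕ | n ≤ X ∧ ∃ a b : ℕ, 1 ≤ a ∧ a ≤ p - 1 ∧ 0 < b ∧ b < p ∧ a * b = n * p + 1}

/-- `M p r U V` is the number of distinct products `a * b` with `1 ≤ a ≤ U`, `1 ≤ b ≤ V` in the
residue class of `r` modulo `p`. -/
noncomputable def M (p r U V : ℕ) : ℕ :=
  Set.ncard {m : ℕ | ∃ a b : ℕ, 1 ≤ a ∧ a ≤ U ∧ 1 ≤ b ∧ b ≤ V ∧ a * b = m ∧ m ≡ r [MOD p]}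

/-- `T U V` is the number of all distinct products `a * b` with `1 ≤ a ≤ U`, `1 ≤ b ≤ V`. -/
noncomputable def T (U V : ℕ) : ℕ :=
  Set.ncard {m : ℕ | ∃ a b : ℕ, 1 ≤ a ∧ a ≤ U ∧ 1 ≤ b ∧ b ≤ V ∧ a * b = m}

/-- `W p = (log p) ^ δ * (log log p) ^ (3/2)` with `δ = 1 - (1 + log log 2) / log 2`. -/
noncomputable def W (p : ℕ) : ℝ :=
  (Real.log p) ^ (1 - (1 + Real.log (Real.log 2)) / Real.log 2) *
    (Real.log (Real.log p)) ^ (3 / 2 : ℝ)

theorem W_eq (p : ℕ) : W p = Pool.Agent.Y594.LPC.Wd p := rfl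

/-- Products in every residue class and in every large box; the class of one gives `L(p)`. -/
theorem result : ∃ c C : ℝ, 0 < c ∧ 0 < C ∧ ∃ p0 : ℕ, ∀ p : ℕ, p.Prime → p0 ≤ p →
    (∀ r U V : ℕ, r.Coprime p → U ≤ p - 1 → V ≤ p - 1 →
      (p : ℝ) ^ (2 - 3 / 50 : ℝ) ≤ U * V →
      c * (U * V / p / W p) ≤ (M p r U V : ℝ) ∧
      (M p r U V : ℝ) ≤ C * (U * V / p / W p) ∧
      c * (T U V / p) ≤ (M p r U V : ℝ) ∧
      (M p r U V : ℝ) ≤ C * (T U V / p)) ∧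
    (∀ X : ℕ, X ≤ p - 1 → 2 * (p : ℝ) ^ (1 - 3 / 50 : ℝ) ≤ X →
      c * (X / W p) ≤ (LX p X : ℝ)) ∧
    c * (p / W p) ≤ (L p : ℝ) ∧ (L p : ℝ) ≤ C * (p / W p) := by
  obtain ⟨c, C, hc, hC, p0, H⟩ := Pool.Agent.Y594.LPC.equi
  refine ⟨c / 4, C, by positivity, hC, max p0 (2 ^ 40), ?_⟩
  intro p hp hpp
  have h0 : p0 ≤ p := le_trans (le_max_left _ _) hpp
  have h40 : 2 ^ 40 ≤ p := le_trans (le_max_right _ _) hpp
  have h16 : 16 ≤ p := le_trans (by norm_num) h40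
  have hpos : (0 : ℝ) < p := by exact_mod_cast hp.pos
  have h16r : (16 : ℝ) ≤ p := by exact_mod_cast h16
  have hW : 0 < W p := by rw [W_eq]; exact Pool.Agent.Y594.LPC.Wd_pos h16
  have hp1 : ((p - 1 : ℕ) : ℝ) = (p : ℝ) - 1 := by
    rw [Nat.cast_sub (by omega)]; push_cast; ring
  have hhalf : (p : ℝ) / 2 ≤ ((p - 1 : ℕ) : ℝ) := by rw [hp1]; linarith
  have hlep : ((p - 1 : ℕ) : ℝ) ≤ p := by rw [hp1]; linarith
  have hpw : (p : ℝ) ^ (1 - 3 / 50 : ℝ) * p = (p : ℝ) ^ (2 - 3 / 50 : ℝ) := by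
    nth_rewrite 2 [← Real.rpow_one (p : ℝ)]
    rw [← Real.rpow_add hpos]; norm_num
  have hfour : 4 * (p : ℝ) ^ (1 - 3 / 50 : ℝ) ≤ p := by
    have h1 : (4 : ℝ) ≤ (p : ℝ) ^ (3 / 50 : ℝ) := by
      have h2 : ((2 : ℝ) ^ (40 : ℝ)) ≤ p := by
        rw [show (40 : ℝ) = ((40 : ℕ) : ℝ) by norm_num, Real.rpow_natCast]
        exact_mod_cast h40
      calc (4 : ℝ) = (2 : ℝ) ^ (2 : ℝ) := by norm_num
        _ ≤ (2 : ℝ) ^ (40 * (3 / 50) : ℝ) :=
            Real.rpow_le_rpow_of_exponent_le (by norm_num) (by norm_num)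
        _ = ((2 : ℝ) ^ (40 : ℝ)) ^ (3 / 50 : ℝ) := Real.rpow_mul (by norm_num) _ _
        _ ≤ _ := Real.rpow_le_rpow (by positivity) h2 (by norm_num)
    calc 4 * (p : ℝ) ^ (1 - 3 / 50 : ℝ) ≤ (p : ℝ) ^ (3 / 50 : ℝ) * (p : ℝ) ^ (1 - 3 / 50 : ℝ) :=
          mul_le_mul_of_nonneg_right h1 (by positivity)
      _ = (p : ℝ) ^ (1 : ℝ) := by rw [← Real.rpow_add hpos]; norm_num
      _ = p := Real.rpow_one _
  have hone : Nat.Coprime 1 p := Nat.coprime_one_left p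
  refine ⟨?_, ?_, ?_⟩
  · intro r U V hr hU hV hUV
    obtain ⟨a1, a2, a3, a4⟩ := H p hp h0 r hr U V hU hV hUV
    rw [← W_eq] at a1 a2
    have hM : M p r U V = (Pool.Agent.Y594.LPC.NS p r U V).card :=
      Pool.Agent.Y594.LPC.ns_ncard p r U V
    have hT : T U V = (Pool.Agent.Y594.LPC.TS U V).card := Pool.Agent.Y594.LPC.ts_ncard U V
    rw [hM, hT]
    refine ⟨?_, a2, ?_, a4⟩
    · refine le_trans (mul_le_mul_of_nonneg_right ?_ (by positivity)) a1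
      linarith
    · refine le_trans (mul_le_mul_of_nonneg_right ?_ (by positivity)) a3
      linarith
  · intro X hX hX2
    have hUV : (p : ℝ) ^ (2 - 3 / 50 : ℝ) ≤ ((p - 1 : ℕ) : ℝ) * X := by
      rw [← hpw]
      calc (p : ℝ) ^ (1 - 3 / 50 : ℝ) * p = (p : ℝ) / 2 * (2 * (p : ℝ) ^ (1 - 3 / 50 : ℝ)) := by
            ring
        _ ≤ ((p - 1 : ℕ) : ℝ) * X := mul_le_mul hhalf hX2 (by positivity) (by positivity)
    have a1 := (H p hp h0 1 hone (p - 1) X le_rfl hX hUV).1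
    rw [← W_eq] at a1
    have hle := Pool.Agent.Y594.LPC.ns_le p X hp hX
    have hle2 : ((Pool.Agent.Y594.LPC.NS p 1 (p - 1) X).card : ℝ) ≤ (LX p X : ℝ) := by
      exact_mod_cast hle
    refine le_trans ?_ (a1.trans hle2)
    have h1 : (1 : ℝ) / 2 ≤ ((p - 1 : ℕ) : ℝ) / p := by
      rw [le_div_iff₀ hpos]; linarith
    calc c / 4 * (X / W p) ≤ c * ((1 / 2) * (X / W p)) := by
          have : 0 ≤ c * (X / W p) := by positivity
          nlinarith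
      _ ≤ c * ((((p - 1 : ℕ) : ℝ) / p) * (X / W p)) :=
          mul_le_mul_of_nonneg_left (mul_le_mul_of_nonneg_right h1 (by positivity)) hc.le
      _ = c * (((p - 1 : ℕ) : ℝ) * X / p / W p) := by ring
  · have hUV : (p : ℝ) ^ (2 - 3 / 50 : ℝ) ≤ ((p - 1 : ℕ) : ℝ) * ((p - 1 : ℕ) : ℝ) := by
      rw [← hpw]
      calc (p : ℝ) ^ (1 - 3 / 50 : ℝ) * p = (4 * (p : ℝ) ^ (1 - 3 / 50 : ℝ)) * (p / 4) := by ring
        _ ≤ p * (p / 4) := mul_le_mul_of_nonneg_right hfour (by positivity)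
        _ = (p / 2) * (p / 2) := by ring
        _ ≤ _ := mul_le_mul hhalf hhalf (by positivity) (by positivity)
    obtain ⟨a1, a2, -, -⟩ := H p hp h0 1 hone (p - 1) (p - 1) le_rfl le_rfl hUV
    rw [← W_eq] at a1 a2
    have hL : L p = (Pool.Agent.Y594.LPC.NS p 1 (p - 1) (p - 1)).card :=
      Pool.Agent.Helper112.LP.ns_eq p hp
    rw [hL]
    constructor
    · refine le_trans ?_ a1
      have h1 : (p : ℝ) / 4 ≤ ((p - 1 : ℕ) : ℝ) * ((p - 1 : ℕ) : ℝ) / p := by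
        rw [le_div_iff₀ hpos]
        calc (p : ℝ) / 4 * p = (p / 2) * (p / 2) := by ring
          _ ≤ _ := mul_le_mul hhalf hhalf (by positivity) (by positivity)
      calc c / 4 * (p / W p) = c * ((p / 4) / W p) := by ring
        _ ≤ _ := mul_le_mul_of_nonneg_left (div_le_div_of_nonneg_right h1 hW.le) hc.le
    · refine a2.trans (mul_le_mul_of_nonneg_left (div_le_div_of_nonneg_right ?_ hW.le) hC.le)
      rw [div_le_iff₀ hpos]
      exact mul_le_mul hlep hlep (by positivity) hpos.le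

end Pool.Agent.Results.MP_5b95d4_nt.EveryClassAndBox
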